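import Pool.Agent.H54.WB.TargetsA
import Pool.Agent.H14.MF.MSF

/-!
# Row LDF (MP_64fb07_lc): first-order logic on labelled graphs and the logic MS
-/

set_option autoImplicit false

namespace Pool.Agent.H12.WB

open Pool.Agent.H54.WB Pool.Agent.H69.VR Pool.Agent.H8.MC

open Classical in
/-- the label of `a` which is coded by the unary relations -/
noncomputable def dec {Λ V : Type} {c : ℕ} (e : Λ ≃ Fin c) (d : Λ) (P : ℕ → V → Prop) (a : V) : Λ :=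
  if h : ∃ s : Λ, ∀ s' : Λ, P (e s') a ↔ s' = s then h.choose else d

theorem dec_eq {Λ V : Type} {c : ℕ} (e : Λ ≃ Fin c) (d : Λ) (P : ℕ → V → Prop) (a : V) (s : Λ)
    (h : ∀ s' : Λ, P (e s') a ↔ s' = s) : dec e d P a = s := by
  have h1 : ∃ s : Λ, ∀ s' : Λ, P (e s') a ↔ s' = s := ⟨s, h⟩
  have h2 := h1.choose_spec
  unfold dec
  rw [dif_pos h1]
  have h3 := (h h1.choose).1 ((h2 h1.choose).2 rfl)
  exact h3

/-- the condition for the codes -/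
def Good {Λ V : Type} {c : ℕ} (e : Λ ≃ Fin c) (P : ℕ → V → Prop) (a : V) : Prop :=
  ∃ s : Λ, ∀ s' : Λ, P (e s') a ↔ s' = s

/-- the translation -/
theorem trf (Λ : Type) [Finite Λ] {c : ℕ} (e : Λ ≃ Fin c) (φ : LF Λ) :
    ∃ q : (A : Type) → (ℕ → A → Prop) → (A → A → Prop) → (ℕ → A) → Prop, FOD q ∧
      ∀ (A : Type) (P : ℕ → A → Prop) (lb : A → Λ) (E : A → A → Prop) (v : ℕ → A),
        (∀ a s', P (e s') a ↔ s' = lb a) → (q A P E v ↔ φ.Sat lb E v) := by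
  obtain ⟨m1, m2, m3, -, m5, m6, -, -, m9, -, -, m12⟩ := Pool.Agent.H14.MF.pf_MSF
  induction φ with
  | lab s x =>
    refine ⟨fun A P E v => ∃ i : {l : Λ // s l}, P (e i.1) (v x),
      m12 {l : Λ // s l} (fun i A P _ v => P (e i.1) (v x)) (fun i => m1 _ x), ?_⟩
    intro A P lb E v h
    constructor
    · rintro ⟨⟨i, hi⟩, h1⟩
      have h2 := (h (v x) i).1 h1
      show s (lb (v x))
      rw [← h2]
      exact hi
    · intro h1
      exact ⟨⟨lb (v x), h1⟩, (h (v x) _).2 rfl⟩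
  | adj x y => exact ⟨_, m2 x y, fun A P lb E v _ => Iff.rfl⟩
  | eq x y => exact ⟨_, m3 x y, fun A P lb E v _ => Iff.rfl⟩
  | neg φ ih =>
    obtain ⟨q, hq, h1⟩ := ih
    exact ⟨_, m5 q hq, fun A P lb E v h => not_congr (h1 A P lb E v h)⟩
  | and φ ψ ih ih' =>
    obtain ⟨q, hq, h1⟩ := ih
    obtain ⟨q', hq', h1'⟩ := ih'
    exact ⟨_, m6 q q' hq hq', fun A P lb E v h => and_congr (h1 A P lb E v h) (h1' A P lb E v h)⟩
  | ex x φ ih =>
    obtain ⟨q, hq, h1⟩ := ih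
    exact ⟨_, m9 x q hq, fun A P lb E v h => exists_congr fun a => h1 A P lb E _ h⟩

theorem good_fod (Λ : Type) [Finite Λ] {c : ℕ} (e : Λ ≃ Fin c) :
    FOD (fun A P E v => ∀ a : A, Good e P a) := by
  obtain ⟨m1, m2, m3, m4, m5, m6, m7, m8, m9, m10, m11, m12⟩ := Pool.Agent.H14.MF.pf_MSF
  have h1 : ∀ s s' : Λ, FOD (fun A P E v => P (e s') (v 0) ↔ s' = s) := by
    intro s s'
    by_cases h : s' = s
    · obtain ⟨φ, hφ, hs⟩ := m1 (e s') 0
      refine ⟨φ, hφ, fun A P R v V => (hs A P R v V).trans ?_⟩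
      simp [h]
    · obtain ⟨φ, hφ, hs⟩ := m5 _ (m1 (e s') 0)
      refine ⟨φ, hφ, fun A P R v V => (hs A P R v V).trans ?_⟩
      simp [h]
  have h2 : ∀ s : Λ, FOD (fun A P E v => ∀ s' : Λ, (P (e s') (v 0) ↔ s' = s)) := fun s =>
    m11 Λ (fun s' A P E v => (P (e s') (v 0) ↔ s' = s)) (fun s' => h1 s s')
  have h3 : FOD (fun A P E v => ∃ s : Λ, ∀ s' : Λ, (P (e s') (v 0) ↔ s' = s)) :=
    m12 Λ (fun s A P E v => ∀ s' : Λ, (P (e s') (v 0) ↔ s' = s)) h2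
  obtain ⟨φ, hφ, hs⟩ := m10 0 _ h3
  refine ⟨φ, hφ, fun A P R v V => (hs A P R v V).trans ?_⟩
  simp only [Function.update_self]
  exact Iff.rfl

theorem pf_LDF : T_LDF := by
  intro Λ _ p hp
  obtain ⟨m1, m2, m3, m4, m5, m6, m7, m8, m9, m10, m11, m12⟩ := Pool.Agent.H14.MF.pf_MSF
  rcases isEmpty_or_nonempty Λ with hE | ⟨⟨d⟩⟩
  · obtain ⟨φ, hφ, hs⟩ := m4 False
    refine ⟨φ, hφ, fun n G hn => ?_⟩
    constructor
    · rintro ⟨P, h⟩
      exact ((hs (Fin n) P (fun _ => G.Adj) (fun _ => ⟨0, hn⟩) (fun _ => ∅)).1 (h _ _)).elim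
    · rintro ⟨lb, -⟩
      exact (hE.false (lb ⟨0, hn⟩)).elim
  · obtain ⟨c, ⟨e⟩⟩ := Finite.exists_equiv_fin Λ
    obtain ⟨φ, hφ⟩ := hp
    obtain ⟨q, hq, hqs⟩ := trf Λ e φ
    obtain ⟨Ψ, hΨ, hΨs⟩ := m6 _ _ (good_fod Λ e) hq
    refine ⟨Ψ, hΨ, fun n G hn => ?_⟩
    constructor
    · rintro ⟨P, h⟩
      have h1 := (hΨs (Fin n) P (fun _ => G.Adj) (fun _ => ⟨0, hn⟩) (fun _ => ∅)).1 (h _ _)
      refine ⟨dec e d P, ?_⟩
      have h2 : ∀ a s', P (e s') a ↔ s' = dec e d P a := by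
        intro a s'
        obtain ⟨s, hs⟩ := h1.1 a
        rw [dec_eq e d P a s hs]
        exact hs s'
      exact (hφ (Fin n) (dec e d P) G.Adj _).1 ((hqs (Fin n) P (dec e d P) G.Adj _ h2).1 h1.2)
    · rintro ⟨lb, hlb⟩
      refine ⟨fun i a => i = (e (lb a) : ℕ), fun v V => ?_⟩
      have h2 : ∀ (a : Fin n) (s' : Λ), ((e s' : ℕ) = (e (lb a) : ℕ)) ↔ s' = lb a := by
        intro a s'
        constructor
        · intro h
          exact e.injective (Fin.ext h)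
        · intro h
          rw [h]
      refine (hΨs (Fin n) _ (fun _ => G.Adj) v V).2 ⟨fun a => ⟨lb a, h2 a⟩, ?_⟩
      exact (hqs (Fin n) (fun i a => i = (e (lb a) : ℕ)) lb G.Adj v h2).2
        ((hφ (Fin n) lb G.Adj v).2 hlb)

end Pool.Agent.H12.WB
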